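import Mathlib
import Pool.Agent.Q29.DigDirM
import Pool.Agent.Q29.Plane
import Pool.Agent.Dim7.PD.Fin
import Pool.Agent.Dim7.PD.PU
import Pool.Agent.Dim7.PD.AR
import Pool.Agent.Dim7.PD.NV
import Pool.Agent.Dim7.PD.SV
import Pool.Agent.Dim7.PD.RH
import Pool.Agent.Dim7.PD.FX

/-!
# The digits of the linear combinations of `ζ(3), ζ(5), ζ(7)` and arbitrary numbers

A rational number has digits of bounded linear complexity (the least order of a linear recurrence which the first `L`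
digits satisfy) in every base. We consider all numbers `b ζ(3) + b' ζ(5) + b'' ζ(7) + e_1 t_1 + … + e_r t_r`, where
`t_1, …, t_r` are arbitrary real numbers (for instance other odd zeta values, or monomials in `π` and odd zeta values)
and the coefficients are integers of absolute value at most a power of the scale, and the first `⌊Λ / log g⌋` digits in
the base `g`. At each large scale `Λ` the coefficient vectors for which in some base `g` the linear complexity is smaller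
than `(1 / (4282 (r + 1)) - ε) Λ / log g` span a space of dimension at most `r + 1` (of `r + 3`). In particular (`r = 0`)
at each scale all the directions `(b : b' : b'')` with at most one exception are such that `b ζ(3) + b' ζ(5) + b'' ζ(7)`
has digits of large linear complexity, in all bases.

The proof uses the lower bound for the distance of `(1, ζ(3), ζ(5), ζ(7))` to rational planes of the starting files (see
`Pool/Agent/Results/MP_c2395a_nt/PlaneDistanceZeta7.lean`), the elimination argument of `Pool/Agent/Q29/Plane.lean` and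
the approximations given by a short recurrence, uniformly in the base (`Pool/Agent/Y928/PL/Mixed.lean`).
-/

set_option autoImplicit false

namespace Pool.Agent.Results.MP_a89d6d_nt.DigitsWithZetaSeven

open Finset

/-- the `i`-th digit of `x` after the point in base `g` -/
noncomputable def digit (g : ℕ) (x : ℝ) (i : ℕ) : ℤ := ⌊x * (g : ℝ) ^ i⌋ % (g : ℤ)

/-- the linear complexity of the first `L` digits of `x` in base `g`: the least `m` such that for some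
rational numbers `c_0, …, c_(m-1)` one has `s_(i+m) = c_0 s_i + … + c_(m-1) s_(i+m-1)` for
`1 ≤ i ≤ L - m`, where `s_i` is the `i`-th digit -/
noncomputable def complexity (g : ℕ) (x : ℝ) (L : ℕ) : ℕ :=
  sInf {m | ∃ c : ℕ → ℚ, ∀ i : ℕ, 1 ≤ i → i + m ≤ L →
    (digit g x (i + m) : ℚ) = ∑ j ∈ range m, c j * (digit g x (i + j) : ℚ)}

/-- the function `m + C √((m+1) log (m+2))` -/
noncomputable def F (C : ℝ) (m : ℕ) : ℝ :=
  m + C * Real.sqrt (((m : ℝ) + 1) * Real.log ((m : ℝ) + 2))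

/-- `ζ(i)` -/
noncomputable def zeta (i : ℕ) : ℝ := ∑' n : ℕ, 1 / ((n : ℝ) + 1) ^ i

/-- the number `b_0 ζ(3) + b_1 ζ(5) + b_2 ζ(7) + e_1 t_1 + … + e_r t_r` -/
noncomputable def comb {r : ℕ} (t : Fin r → ℝ) (b : Fin 3 → ℤ) (e : Fin r → ℤ) : ℝ :=
  b 0 * zeta 3 + b 1 * zeta 5 + b 2 * zeta 7 + ∑ j, (e j : ℝ) * t j

/-- the distance to rational planes -/
theorem plane : ∃ c : ℝ, 0 < c ∧ Pool.Agent.Q29.Plane.PlaneDist (fun i : Fin 3 => zeta (2 * i + 3)) 1070 c := by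
  obtain ⟨c, hc, h⟩ := Pool.Agent.Dim7.PD.main_of Pool.Agent.Dim7.PD.P_unif
    (Pool.Agent.Dim7.PD.AR_of Pool.Agent.Dim7.PD.FN_in Pool.Agent.Dim7.PD.rho_le' Pool.Agent.Dim7.PD.BL_le'
      Pool.Agent.Dim7.PD.sv_add' Pool.Agent.Dim7.PD.sv_entry') Pool.Agent.Dim7.PD.nonv
  refine ⟨c, hc, fun q a b θ H hq hqH hbH => ?_⟩
  obtain ⟨i, hi, hle⟩ := h q (fun n => a (if n = 3 then 0 else if n = 5 then 1 else 2))
    (fun n => b (if n = 3 then 0 else if n = 5 then 1 else 2)) θ H hq hqH (fun i _ => hbH _)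
  simp only [Finset.mem_insert, Finset.mem_singleton] at hi
  rcases hi with rfl | rfl | rfl
  · exact ⟨0, hle⟩
  · exact ⟨1, hle⟩
  · exact ⟨2, hle⟩

theorem part1 (r : ℕ) : ∃ C : ℝ, 0 < C ∧ ∀ (t : Fin r → ℝ) (b : Fin (r + 2) → Fin 3 → ℤ)
      (e : Fin (r + 2) → Fin r → ℤ), LinearIndependent ℤ (fun k => (b k, e k)) → ∀ M : ℝ, 1 ≤ M →
      (∀ k j, |(b k j : ℝ)| ≤ M) → (∀ k j, |(e k j : ℝ)| ≤ M) → ∀ g : Fin (r + 2) → ℕ, (∀ k, 2 ≤ g k) →
      ∀ (L : Fin (r + 2) → ℕ) (Λ α : ℝ), (∀ k, Λ ≤ L k * Real.log (g k)) →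
        (∀ k, F C (complexity (g k) (comb t (b k) (e k)) (L k)) * Real.log (g k) ≤ α) →
          Λ ≤ 4282 * (r + 1) * α + (4282 * r + 4281) * Real.log M := by
  obtain ⟨c, hc, h⟩ := plane
  obtain ⟨c', hc', h'⟩ := Pool.Agent.Q29.Plane.rank_plane _ 1070 c hc h r
  obtain ⟨C, hC, h''⟩ := Pool.Agent.Q29.DD.max_digits (r := r) (n := r + 2) (fun i : Fin 3 => zeta (2 * i + 3))
    (4282 * r + 4281) c' (by positivity) hc' (by
      intro t X hX v hv hvX
      obtain ⟨k, hk⟩ := h' t X hX v hv hvX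
      refine ⟨k, ?_⟩
      have e1 : Pool.Agent.Q29.DD.val (fun i : Fin 3 => zeta (2 * i + 3)) t (v k) =
          Pool.Agent.Q29.Plane.val (fun i : Fin 3 => zeta (2 * i + 3)) t (v k) := rfl
      rw [e1]
      refine le_trans (le_of_eq ?_) hk
      have hX0 : 0 < X := by linarith
      rw [Real.rpow_neg hX0.le, ← div_eq_mul_inv]
      congr 1
      have e2 : ((4282 : ℝ) * r + 4281) = (((4 * 1070 + 1) * (r + 1) + r : ℕ) : ℝ) := by
        push_cast
        ring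
      rw [e2, Real.rpow_natCast])
  refine ⟨C, hC, fun t b e hli M hM hb he g hg L Λ α hΛ hα => ?_⟩
  have h1 := h'' t b e hli M hM hb he g hg L Λ α hΛ (by
    intro k
    have e1 : (∑ j, (b k j : ℝ) * (fun i : Fin 3 => zeta (2 * i + 3)) j) + ∑ j, (e k j : ℝ) * t j =
        comb t (b k) (e k) := by
      rw [Fin.sum_univ_three]
      rfl
    rw [e1]
    exact hα k)
  refine h1.trans (le_of_eq ?_)
  ring

theorem part2 (r : ℕ) (ε : ℝ) (hε : 0 < ε) : ∃ δ : ℝ, 0 < δ ∧ ∀ (Λ : ℝ), 1 ≤ Λ → ∀ (t : Fin r → ℝ)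
      (b : Fin (r + 2) → Fin 3 → ℤ) (e : Fin (r + 2) → Fin r → ℤ), LinearIndependent ℤ (fun k => (b k, e k)) →
      (∀ k j, |(b k j : ℝ)| ≤ Real.exp (δ * Λ)) → (∀ k j, |(e k j : ℝ)| ≤ Real.exp (δ * Λ)) →
      ∀ g : Fin (r + 2) → ℕ, (∀ k, 2 ≤ g k) → (∀ k, (g k : ℝ) ≤ Real.exp (δ * Λ)) →
        ∃ k, (1 / (4282 * (r + 1)) - ε) * (Λ / Real.log (g k)) ≤
          complexity (g k) (comb t (b k) (e k)) ⌊Λ / Real.log (g k)⌋₊ := by
  obtain ⟨C, hC, h⟩ := part1 r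
  have hr0 : (0 : ℝ) ≤ r := Nat.cast_nonneg _
  obtain ⟨δ, hδ, h'⟩ := Pool.Agent.Q29.DD.scale (n := r + 2) (4282 * (r + 1)) C (4282 * r + 4281) ε
    (by nlinarith) hC (by positivity) hε
  refine ⟨δ, hδ, fun Λ hΛ t b e hli hb he g hg hgL => ?_⟩
  refine h' Λ hΛ (fun k => comb t (b k) (e k)) g hg hgL ?_
  intro L a Λ' hΛ' ha
  have h1 := h t b e hli (Real.exp (δ * Λ)) (Real.one_le_exp (by positivity)) hb he g hg L Λ' a hΛ' ha
  rwa [Real.log_exp] at h1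

theorem part3 (ε : ℝ) (hε : 0 < ε) : ∃ δ : ℝ, 0 < δ ∧ ∀ (Λ : ℝ), 1 ≤ Λ → ∀ b b' : Fin 3 → ℤ,
      (∀ m n : ℤ, (∀ j, m * b j = n * b' j) → m = 0 ∧ n = 0) →
      (∀ j, |(b j : ℝ)| ≤ Real.exp (δ * Λ)) → (∀ j, |(b' j : ℝ)| ≤ Real.exp (δ * Λ)) →
      ∀ g g' : ℕ, 2 ≤ g → 2 ≤ g' → (g : ℝ) ≤ Real.exp (δ * Λ) → (g' : ℝ) ≤ Real.exp (δ * Λ) →
        (1 / 4282 - ε) * (Λ / Real.log g) ≤
          complexity g (b 0 * zeta 3 + b 1 * zeta 5 + b 2 * zeta 7) ⌊Λ / Real.log g⌋₊ ∨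
        (1 / 4282 - ε) * (Λ / Real.log g') ≤
          complexity g' (b' 0 * zeta 3 + b' 1 * zeta 5 + b' 2 * zeta 7) ⌊Λ / Real.log g'⌋₊ := by
  obtain ⟨δ, hδ, h⟩ := part2 0 ε hε
  refine ⟨δ, hδ, fun Λ hΛ b b' hne hb hb' g g' hg hg' hgL hgL' => ?_⟩
  have hli : LinearIndependent ℤ (fun k : Fin (0 + 2) =>
      (((![b, b'] : Fin 2 → Fin 3 → ℤ) k, (fun j => j.elim0 : Fin 0 → ℤ)) : (Fin 3 → ℤ) × (Fin 0 → ℤ))) := by
    rw [Fintype.linearIndependent_iff]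
    intro c hc
    have h1 := congrArg Prod.fst hc
    rw [Prod.fst_sum, Fin.sum_univ_two] at h1
    obtain ⟨h2, h3⟩ := hne (c 0) (-c 1) (fun j => by
      have h4 := congrFun h1 j
      have h5 : c 0 * b j + c 1 * b' j = 0 := h4
      linarith)
    intro k
    fin_cases k
    · exact h2
    · change c 1 = 0
      omega
  obtain ⟨k, hk⟩ := h Λ hΛ (fun j => j.elim0) ![b, b'] (fun _ j => j.elim0) hli
    (by intro k j; fin_cases k; exacts [hb j, hb' j]) (fun _ j => j.elim0) ![g, g']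
    (by intro k; fin_cases k; exacts [hg, hg']) (by intro k; fin_cases k; exacts [hgL, hgL'])
  have e1 : ∀ b : Fin 3 → ℤ, comb (fun j : Fin 0 => j.elim0) b (fun j => j.elim0) =
      b 0 * zeta 3 + b 1 * zeta 5 + b 2 * zeta 7 := by
    intro b
    unfold comb
    simp
  have e2 : (1 : ℝ) / (4282 * (((0 : ℕ) : ℝ) + 1)) = 1 / 4282 := by norm_num
  fin_cases k
  · left
    have h1 : (1 / (4282 * (((0 : ℕ) : ℝ) + 1)) - ε) * (Λ / Real.log g) ≤
          complexity g (comb (fun j : Fin 0 => j.elim0) b (fun j => j.elim0)) ⌊Λ / Real.log g⌋₊ := hk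
    rwa [e1, e2] at h1
  · right
    have h1 : (1 / (4282 * (((0 : ℕ) : ℝ) + 1)) - ε) * (Λ / Real.log g') ≤
          complexity g' (comb (fun j : Fin 0 => j.elim0) b' (fun j => j.elim0)) ⌊Λ / Real.log g'⌋₊ := hk
    rwa [e1, e2] at h1

/-- **The digits of the linear combinations of `ζ(3), ζ(5), ζ(7)` and arbitrary numbers.** (1) For each `r` there is
`C` such that for all real `t_1, …, t_r`, all `r + 2` linearly independent integer vectors `(b_k, e_k)` of height at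
most `M`, all bases `g_k` and lengths `L_k`, if `F(N_k) log g_k ≤ α` for the linear complexity `N_k` of the first `L_k`
digits of the `k`-th number in base `g_k`, then `min L_k log g_k ≤ 4282 (r + 1) α + (4282 r + 4281) log M`. (2) For
`ε > 0` there is `δ > 0` such that for all `Λ ≥ 1`, all `t`, all such vectors of height at most `e^(δ Λ)` and all bases
`g_k ≤ e^(δ Λ)` at least one of the complexities of the first `⌊Λ / log g_k⌋` digits is at least
`(1 / (4282 (r + 1)) - ε) Λ / log g_k`. (3) The case `r = 0`: two directions `(b : b' : b'')`. -/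
theorem result :
    (∀ r : ℕ, ∃ C : ℝ, 0 < C ∧ ∀ (t : Fin r → ℝ) (b : Fin (r + 2) → Fin 3 → ℤ)
      (e : Fin (r + 2) → Fin r → ℤ), LinearIndependent ℤ (fun k => (b k, e k)) → ∀ M : ℝ, 1 ≤ M →
      (∀ k j, |(b k j : ℝ)| ≤ M) → (∀ k j, |(e k j : ℝ)| ≤ M) → ∀ g : Fin (r + 2) → ℕ, (∀ k, 2 ≤ g k) →
      ∀ (L : Fin (r + 2) → ℕ) (Λ α : ℝ), (∀ k, Λ ≤ L k * Real.log (g k)) →
        (∀ k, F C (complexity (g k) (comb t (b k) (e k)) (L k)) * Real.log (g k) ≤ α) →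
          Λ ≤ 4282 * (r + 1) * α + (4282 * r + 4281) * Real.log M) ∧
    (∀ (r : ℕ) (ε : ℝ), 0 < ε → ∃ δ : ℝ, 0 < δ ∧ ∀ (Λ : ℝ), 1 ≤ Λ → ∀ (t : Fin r → ℝ)
      (b : Fin (r + 2) → Fin 3 → ℤ) (e : Fin (r + 2) → Fin r → ℤ), LinearIndependent ℤ (fun k => (b k, e k)) →
      (∀ k j, |(b k j : ℝ)| ≤ Real.exp (δ * Λ)) → (∀ k j, |(e k j : ℝ)| ≤ Real.exp (δ * Λ)) →
      ∀ g : Fin (r + 2) → ℕ, (∀ k, 2 ≤ g k) → (∀ k, (g k : ℝ) ≤ Real.exp (δ * Λ)) →
        ∃ k, (1 / (4282 * (r + 1)) - ε) * (Λ / Real.log (g k)) ≤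
          complexity (g k) (comb t (b k) (e k)) ⌊Λ / Real.log (g k)⌋₊) ∧
    (∀ ε : ℝ, 0 < ε → ∃ δ : ℝ, 0 < δ ∧ ∀ (Λ : ℝ), 1 ≤ Λ → ∀ b b' : Fin 3 → ℤ,
      (∀ m n : ℤ, (∀ j, m * b j = n * b' j) → m = 0 ∧ n = 0) →
      (∀ j, |(b j : ℝ)| ≤ Real.exp (δ * Λ)) → (∀ j, |(b' j : ℝ)| ≤ Real.exp (δ * Λ)) →
      ∀ g g' : ℕ, 2 ≤ g → 2 ≤ g' → (g : ℝ) ≤ Real.exp (δ * Λ) → (g' : ℝ) ≤ Real.exp (δ * Λ) →
        (1 / 4282 - ε) * (Λ / Real.log g) ≤
          complexity g (b 0 * zeta 3 + b 1 * zeta 5 + b 2 * zeta 7) ⌊Λ / Real.log g⌋₊ ∨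
        (1 / 4282 - ε) * (Λ / Real.log g') ≤
          complexity g' (b' 0 * zeta 3 + b' 1 * zeta 5 + b' 2 * zeta 7) ⌊Λ / Real.log g'⌋₊) :=
  ⟨part1, part2, part3⟩

end Pool.Agent.Results.MP_a89d6d_nt.DigitsWithZetaSeven
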