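import Mathlib
import Pool.Agent.Q29.NR
import Pool.Agent.Y801.Z5S.Fin

/-!
# The span of the near relations between `1`, `ζ(5)` and arbitrary numbers

For all real numbers `t_1, …, t_r` (for instance `ζ(5) ^ 2, …, ζ(5) ^ (r + 1)`, or other odd zeta
values, or monomials in `π` and odd zeta values) the integer vectors of norm at most `X` on which the
linear form `a + b ζ(5) + e_1 t_1 + … + e_r t_r` is smaller than `c X ^ (-(83 r + 82))` span a space
of dimension at most `r`, at every scale `X`, with `c` independent of `t_1, …, t_r`; in particular the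
integer polynomials of degree at most `m` and height at most `X` with `|P(ζ(5))| < c X ^ (-(83 m - 1))`
span a space of dimension at most `m - 1`. The measure of irrationality of `ζ(5)` is the theorem
`Pool/Agent/Results/MP_c2395a_nt/ZetaFiveMeasureSharp.lean`.
-/

set_option autoImplicit false

namespace Pool.Agent.Results.MP_a89d6d_nt.SpanWithZetaFive

open Pool.Agent.TH647.NR

/-- the measure for `1, ζ(5)` -/
theorem meas : ∃ c : ℝ, 0 < c ∧ Pool.Agent.W472.AC.Meas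
    (![1, ∑' n : ℕ, 1 / ((n : ℝ) + 1) ^ 5] : Fin (1 + 1) → ℝ) 82 c := by
  obtain ⟨c, hc, h⟩ := Pool.Agent.Y801.Z5S.measure83
  have h1 := Pool.Agent.Q29.NR.meas_of_exp (∑' n : ℕ, 1 / ((n : ℝ) + 1) ^ 5) 83 (by norm_num) c hc
    (fun p q hq => by
      have h2 := h p q hq
      have e1 : (q : ℝ) ^ (83 : ℝ) = (q : ℝ) ^ 83 := by
        rw [← Real.rpow_natCast]
        norm_num
      rw [e1]
      exact h2)
  refine ⟨min c 1, by positivity, ?_⟩
  convert h1 using 1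
  norm_num

/-- the value of a polynomial of degree at most `m + 1` -/
theorem aeval_split (m : ℕ) (z : ℝ) (P : Polynomial ℤ) (h : P.natDegree ≤ m + 1) :
    Polynomial.aeval z P = (P.coeff 0 : ℝ) + P.coeff 1 * z +
      ∑ j : Fin m, (P.coeff ((j : ℕ) + 2) : ℝ) * z ^ ((j : ℕ) + 2) := by
  have h1 : Polynomial.aeval z P = ∑ i ∈ Finset.range (m + 2), (P.coeff i : ℝ) * z ^ i := by
    rw [Polynomial.aeval_eq_sum_range' (show P.natDegree < m + 2 by omega)]
    exact Finset.sum_congr rfl fun i _ => by rw [zsmul_eq_mul]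
  rw [h1, Finset.sum_range_succ', Finset.sum_range_succ', Finset.sum_range]
  have h2 : ∑ j : Fin m, (P.coeff ((j : ℕ) + 2) : ℝ) * z ^ ((j : ℕ) + 2) =
      ∑ j : Fin m, (P.coeff ((j : ℕ) + 1 + 1) : ℝ) * z ^ ((j : ℕ) + 1 + 1) := rfl
  rw [h2, pow_zero, mul_one, zero_add, pow_one]
  ring

theorem result :
    (∀ r : ℕ, ∃ c : ℝ, 0 < c ∧ ∀ (t : Fin r → ℝ) (X : ℝ), 1 ≤ X →
      ∀ v : Fin (r + 1) → (Fin 2 → ℤ) × (Fin r → ℤ), LinearIndependent ℤ v →
        (∀ k, ‖v k‖ ≤ X) →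
        ∃ k, c * X ^ (-(83 * (r : ℝ) + 82)) ≤
          |((v k).1 0 : ℝ) + (v k).1 1 * (∑' n : ℕ, 1 / ((n : ℝ) + 1) ^ 5) +
            ∑ j, ((v k).2 j : ℝ) * t j|) ∧
    (∀ m : ℕ, ∃ c : ℝ, 0 < c ∧ ∀ X : ℝ, 1 ≤ X →
      ∀ P : Fin (m + 1) → Polynomial ℤ, LinearIndependent ℤ P → (∀ k, (P k).natDegree ≤ m + 1) →
        (∀ k i, |((P k).coeff i : ℝ)| ≤ X) →
        ∃ k, c * X ^ (-(83 * ((m : ℝ) + 1) - 1)) ≤
          |Polynomial.aeval (∑' n : ℕ, 1 / ((n : ℝ) + 1) ^ 5) (P k)|) := by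
  have part1 : ∀ r : ℕ, ∃ c : ℝ, 0 < c ∧ ∀ (t : Fin r → ℝ) (X : ℝ), 1 ≤ X →
      ∀ v : Fin (r + 1) → (Fin 2 → ℤ) × (Fin r → ℤ), LinearIndependent ℤ v →
        (∀ k, ‖v k‖ ≤ X) →
        ∃ k, c * X ^ (-(83 * (r : ℝ) + 82)) ≤
          |((v k).1 0 : ℝ) + (v k).1 1 * (∑' n : ℕ, 1 / ((n : ℝ) + 1) ^ 5) +
            ∑ j, ((v k).2 j : ℝ) * t j| := by
    obtain ⟨c, hc, h⟩ := meas
    intro r
    obtain ⟨c', hc', h'⟩ := rank_bound _ 82 c hc h r
    refine ⟨c', hc', fun t X hX v hv hvX => ?_⟩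
    obtain ⟨k, hk⟩ := h' t X hX v hv hvX
    refine ⟨k, ?_⟩
    have e1 : linr (![1, ∑' n : ℕ, 1 / ((n : ℝ) + 1) ^ 5] : Fin (1 + 1) → ℝ) t (v k) =
        ((v k).1 0 : ℝ) + (v k).1 1 * (∑' n : ℕ, 1 / ((n : ℝ) + 1) ^ 5) +
            ∑ j, ((v k).2 j : ℝ) * t j := by
      unfold linr
      rw [Fin.sum_univ_two]
      simp
    rw [e1] at hk
    refine le_trans (le_of_eq ?_) hk
    congr 2
    ring
  refine ⟨part1, fun m => ?_⟩
  obtain ⟨c, hc, h⟩ := part1 m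
  refine ⟨c, hc, fun X hX P hP hdeg hX' => ?_⟩
  obtain ⟨z, hz⟩ : ∃ z : ℝ, z = ∑' n : ℕ, 1 / ((n : ℝ) + 1) ^ 5 := ⟨_, rfl⟩
  rw [← hz] at h ⊢
  obtain ⟨v, hv⟩ : ∃ v : Fin (m + 1) → (Fin 2 → ℤ) × (Fin m → ℤ), v = fun k =>
    ((fun i : Fin 2 => (P k).coeff (i : ℕ)), (fun j : Fin m => (P k).coeff ((j : ℕ) + 2))) :=
    ⟨_, rfl⟩
  have hv1 : ∀ k i, (v k).1 i = (P k).coeff (i : ℕ) := fun k i => by rw [hv]
  have hv2 : ∀ k j, (v k).2 j = (P k).coeff ((j : ℕ) + 2) := fun k j => by rw [hv]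
  have hvl : LinearIndependent ℤ v := by
    rw [Fintype.linearIndependent_iff] at hP ⊢
    intro g hg
    refine hP g ?_
    have hcoe : ∀ i : ℕ, ∑ k, g k * (P k).coeff i = 0 := by
      intro i
      rcases lt_or_ge i 2 with h2 | h2
      · have h3 := congrFun (congrArg Prod.fst hg) ⟨i, h2⟩
        rw [Prod.fst_sum, Finset.sum_apply] at h3
        simp only [Prod.smul_fst, Pi.smul_apply, smul_eq_mul, hv1, Prod.fst_zero,
          Pi.zero_apply] at h3
        exact h3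
      · rcases lt_or_ge i (m + 2) with h4 | h4
        · have h3 := congrFun (congrArg Prod.snd hg) ⟨i - 2, by omega⟩
          rw [Prod.snd_sum, Finset.sum_apply] at h3
          have h5 : i - 2 + 2 = i := by omega
          simp only [Prod.smul_snd, Pi.smul_apply, smul_eq_mul, hv2, h5, Prod.snd_zero,
            Pi.zero_apply] at h3
          exact h3
        · refine Finset.sum_eq_zero fun k _ => ?_
          rw [Polynomial.coeff_eq_zero_of_natDegree_lt (by have := hdeg k; omega), mul_zero]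
    ext i
    simpa [Polynomial.finsetSum_coeff] using hcoe i
  have hvn : ∀ k, ‖v k‖ ≤ X := by
    intro k
    have hX0 : 0 ≤ X := by linarith
    have hcast : ∀ n : ℤ, ‖n‖ = |(n : ℝ)| := fun n => rfl
    rw [Prod.norm_def, max_le_iff]
    refine ⟨(pi_norm_le_iff_of_nonneg hX0).2 fun i => ?_,
      (pi_norm_le_iff_of_nonneg hX0).2 fun i => ?_⟩
    · rw [hv1, hcast]
      exact hX' k _
    · rw [hv2, hcast]
      exact hX' k _
  obtain ⟨k, hk⟩ := h (fun j => z ^ ((j : ℕ) + 2)) X hX v hvl hvn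
  refine ⟨k, ?_⟩
  have e1 : Polynomial.aeval z (P k) = ((v k).1 0 : ℝ) + (v k).1 1 * z +
      ∑ j, ((v k).2 j : ℝ) * z ^ ((j : ℕ) + 2) := by
    simp only [aeval_split m z (P k) (hdeg k), hv1, hv2]
    rfl
  rw [e1]
  refine le_trans (le_of_eq ?_) hk
  congr 2
  ring

end Pool.Agent.Results.MP_a89d6d_nt.SpanWithZetaFive
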